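import Pool.Agent.Helper65.UG.Mv
import Pool.Agent.Helper69.UG.Defs

/-!
# UG R10, R11: the prime sum as a Dirichlet polynomial
-/

set_option autoImplicit false
open MeasureTheory Set Filter Topology
open Pool.Agent.Helper57.Zeta Pool.Agent.Helper57.LH Pool.Agent.Helper57.ED Pool.Agent.Helper54.LG
open Pool.Agent.Helper69.UG (XX Adm PR KR rr RR VV WW wt WP)

namespace Pool.Agent.Helper65.UG

/-- Coefficients of the prime sum. -/
noncomputable def cf (X : ℝ) (n : ℕ) : ℝ :=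
  2 / X * (ArithmeticFunction.vonMangoldt n / Real.sqrt n * (1 - Real.log n / X) ^ 2)

lemma SS_eq (X t : ℝ) : SS X t = ∑ n ∈ Finset.Icc 1 ⌊Real.exp X⌋₊, cf X n * Real.cos (t * Real.log n) := by
  unfold SS cf
  rw [Finset.mul_sum]
  have h : Finset.range (⌊Real.exp X⌋₊ + 1) = insert 0 (Finset.Icc 1 ⌊Real.exp X⌋₊) := by
    ext n
    simp only [Finset.mem_range, Finset.mem_insert, Finset.mem_Icc]
    omega
  rw [h, Finset.sum_insert (by simp)]
  simp only [ArithmeticFunction.map_zero, zero_div, zero_mul, mul_zero, zero_add]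
  refine Finset.sum_congr rfl fun n _ => ?_
  ring

lemma cf_bd {X : ℝ} (hX : 0 < X) {n : ℕ} (hn : n ∈ Finset.Icc 1 ⌊Real.exp X⌋₊) :
    0 ≤ cf X n ∧ cf X n ≤ 2 / X * ArithmeticFunction.vonMangoldt n / Real.sqrt n ∧ cf X n ≤ 2 ∧
      Real.log n ≤ X := by
  rw [Finset.mem_Icc] at hn
  have hn1 : (1:ℝ) ≤ n := by exact_mod_cast hn.1
  have hn0 : (0:ℝ) < n := by linarith
  have hle : (n : ℝ) ≤ Real.exp X := (Nat.le_floor_iff (Real.exp_pos X).le).1 hn.2
  have hlog : Real.log n ≤ X := (Real.log_le_iff_le_exp hn0).2 hle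
  have hlog0 : 0 ≤ Real.log n := Real.log_nonneg hn1
  have hL0 : 0 ≤ ArithmeticFunction.vonMangoldt n := ArithmeticFunction.vonMangoldt_nonneg
  have hL1 : ArithmeticFunction.vonMangoldt n ≤ Real.log n := ArithmeticFunction.vonMangoldt_le_log
  have hs1 : 1 ≤ Real.sqrt n := Real.one_le_sqrt.2 hn1
  have hs0 : 0 < Real.sqrt n := by linarith
  have h1 : 0 ≤ 1 - Real.log n / X := by
    rw [sub_nonneg, div_le_one hX]
    exact hlog
  have h2 : 1 - Real.log n / X ≤ 1 := by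
    have : 0 ≤ Real.log n / X := by positivity
    linarith
  have h3 : (1 - Real.log n / X) ^ 2 ≤ 1 := pow_le_one₀ h1 h2
  have h4 : cf X n ≤ 2 / X * ArithmeticFunction.vonMangoldt n / Real.sqrt n := by
    unfold cf
    rw [mul_div_assoc]
    apply mul_le_mul_of_nonneg_left _ (by positivity)
    calc _ ≤ ArithmeticFunction.vonMangoldt n / Real.sqrt n * 1 :=
          mul_le_mul_of_nonneg_left h3 (by positivity)
      _ = _ := mul_one _
  refine ⟨by unfold cf; positivity, h4, h4.trans ?_, hlog⟩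
  calc 2 / X * ArithmeticFunction.vonMangoldt n / Real.sqrt n ≤ 2 / X * X / 1 := by
        apply div_le_div₀ (by positivity) _ one_pos hs1
        exact mul_le_mul_of_nonneg_left (hL1.trans hlog) (by positivity)
    _ = 2 := by field_simp

/-- The complex polynomial with real part `SS`. -/
noncomputable def DD (X t : ℝ) : ℂ := ∑ n ∈ Finset.Icc 1 ⌊Real.exp X⌋₊, (cf X n : ℂ) * ee n t

lemma ee_re (n : ℕ) (t : ℝ) : (ee n t).re = Real.cos (t * Real.log n) := by
  unfold ee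
  rw [mul_comm, Complex.exp_ofReal_mul_I_re, ← Real.cos_neg]
  congr 1
  ring

lemma SS_le (X t : ℝ) : SS X t ^ 2 ≤ ‖DD X t‖ ^ 2 := by
  have h1 : SS X t = (DD X t).re := by
    rw [SS_eq, DD, Complex.re_sum]
    refine Finset.sum_congr rfl fun n _ => ?_
    rw [Complex.re_ofReal_mul, ee_re]
  rw [h1, ← sq_abs (DD X t).re]
  exact pow_le_pow_left₀ (abs_nonneg _) (Complex.abs_re_le_norm _) 2

lemma cpow_ee {m : ℕ} (hm : 1 ≤ m) (t : ℝ) :
    (m : ℂ) ^ (-((1 / 2 : ℂ) + (t : ℂ) * Complex.I)) = ((1 / Real.sqrt m : ℝ) : ℂ) * ee m t := by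
  have hm0 : (0:ℝ) < m := by exact_mod_cast hm
  have hmc : (m : ℂ) ≠ 0 := by exact_mod_cast hm0.ne'
  have h1 : (1 / Real.sqrt m : ℝ) = Real.exp (-(Real.log m / 2)) := by
    rw [Real.exp_neg, one_div, Real.sqrt_eq_rpow, Real.rpow_def_of_pos hm0]
    congr 2
    ring
  rw [Complex.cpow_def_of_ne_zero hmc, h1, ee, Complex.ofReal_exp, ← Complex.exp_add, ← Complex.natCast_log]
  congr 1
  push_cast
  ring

lemma RR_eq (T c v t : ℝ) : RR T c v t =
    ∑ m ∈ Finset.Icc 1 (Pool.Agent.Helper69.UG.NR T), ((rr T c v m / Real.sqrt m : ℝ) : ℂ) * ee m t := by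
  unfold RR
  refine Finset.sum_congr rfl fun m hm => ?_
  rw [cpow_ee (Finset.mem_Icc.1 hm).1, ← mul_assoc]
  congr 1
  push_cast
  ring

lemma RR_cont (T c v : ℝ) : Continuous (RR T c v) := by
  have : RR T c v = fun t => ∑ m ∈ Finset.Icc 1 (Pool.Agent.Helper69.UG.NR T),
      ((rr T c v m / Real.sqrt m : ℝ) : ℂ) * ee m t := funext fun t => RR_eq T c v t
  rw [this]
  exact continuous_finsetSum _ fun m _ => continuous_const.mul (ee_cont m)

lemma DD_cont (X : ℝ) : Continuous (DD X) := by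
  unfold DD
  exact continuous_finsetSum _ fun m _ => continuous_const.mul (ee_cont m)

lemma SS_cont (X : ℝ) : Continuous (SS X) := by
  have : SS X = fun t => ∑ n ∈ Finset.Icc 1 ⌊Real.exp X⌋₊, cf X n * Real.cos (t * Real.log n) :=
    funext fun t => SS_eq X t
  rw [this]
  fun_prop

lemma RR_bdd (T c v : ℝ) : ∃ B : ℝ, ∀ t, ‖RR T c v t‖ ≤ B := by
  refine ⟨∑ m ∈ Finset.Icc 1 (Pool.Agent.Helper69.UG.NR T), ‖((rr T c v m / Real.sqrt m : ℝ) : ℂ)‖, fun t => ?_⟩
  rw [RR_eq]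
  refine (norm_sum_le _ _).trans (Finset.sum_le_sum fun m _ => ?_)
  rw [norm_mul, ee_norm, mul_one]

lemma SS_bdd (X : ℝ) : ∃ B : ℝ, ∀ t, |SS X t| ≤ B := by
  refine ⟨∑ n ∈ Finset.Icc 1 ⌊Real.exp X⌋₊, |cf X n|, fun t => ?_⟩
  rw [SS_eq]
  refine (Finset.abs_sum_le_sum_abs _ _).trans (Finset.sum_le_sum fun n _ => ?_)
  rw [abs_mul]
  calc |cf X n| * |Real.cos (t * Real.log n)| ≤ |cf X n| * 1 :=
        mul_le_mul_of_nonneg_left (Real.abs_cos_le_one _) (abs_nonneg _)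
    _ = _ := mul_one _

lemma DD_bdd (X : ℝ) : ∃ B : ℝ, ∀ t, ‖DD X t‖ ≤ B := by
  refine ⟨∑ n ∈ Finset.Icc 1 ⌊Real.exp X⌋₊, ‖(cf X n : ℂ)‖, fun t => ?_⟩
  unfold DD
  refine (norm_sum_le _ _).trans (Finset.sum_le_sum fun n _ => ?_)
  rw [norm_mul, ee_norm, mul_one]

/-- Any bounded continuous function can be integrated against the weight. -/
lemma int_wt {T c v τ : ℝ} (hT : 0 < T) {f : ℝ → ℝ} (hf : Continuous f) {C : ℝ} (hC : ∀ t, |f t| ≤ C) :
    Integrable fun t => wt T c v τ t * f t := by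
  obtain ⟨B, hB⟩ := RR_bdd T c v
  have hW : 0 < WW T := Real.rpow_pos_of_pos hT _
  have h := int_PW_bdd hW τ (f := fun t => ‖RR T c v t‖ ^ 2 * f t) (by
    exact ((RR_cont T c v).norm.pow 2).mul hf) (C := B ^ 2 * C) (fun t => by
      rw [abs_mul, abs_of_nonneg (by positivity)]
      have h1 : ‖RR T c v t‖ ^ 2 ≤ B ^ 2 := pow_le_pow_left₀ (norm_nonneg _) (hB t) 2
      exact mul_le_mul h1 (hC t) (abs_nonneg _) ((sq_nonneg _).trans h1))
  refine h.congr (Eventually.of_forall fun t => ?_)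
  simp only [wt]
  ring

lemma wt_nonneg {T c v τ : ℝ} (hT : 0 < T) (t : ℝ) : 0 ≤ wt T c v τ t := by
  unfold wt
  have := PW_pos (W := WW T) (Real.rpow_pos_of_pos hT _) (t - τ)
  positivity

end Pool.Agent.Helper65.UG
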