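import Pool.Agent.Helper65.UG.ESS
import Pool.Agent.Helper60.UG.R
import Pool.Agent.Helper25.UG.Bv2
import Pool.Agent.Helper36.UG.Res

/-!
# UG R10
-/

set_option autoImplicit false
open MeasureTheory Set Filter Topology
open Pool.Agent.Helper57.Zeta Pool.Agent.Helper57.LH Pool.Agent.Helper57.ED Pool.Agent.Helper54.LG
open Pool.Agent.Helper69.UG (XX Adm PR KR rr RR VV WW wt WP NR)

namespace Pool.Agent.Helper65.UG

/-- R10: the mean of the prime sum, averaged over the window -/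
theorem eSS : ∃ κ c0 T0 : ℝ, 0 < κ ∧ ∀ T, T0 ≤ T → ∀ c, Adm c0 T c → ∀ v : ℝ, v ^ 2 = c / 100 → ∀ τ : ℝ,
    κ * v ^ 2 * VV T c v ≤ v * ∫ t, wt T c v τ t *
      (XX T c / (2 * Real.pi) * ∫ w in (-(Real.pi / XX T c))..(Real.pi / XX T c), SS (XX T c) (t + w)) :=
  eSS_of Pool.Agent.Helper60.UG.rr_bd Pool.Agent.Helper25.UG.PR_facts
    (Pool.Agent.Helper36.UG.WP_bd_of Pool.Agent.Helper25.UG.PR_facts) Pool.Agent.Helper60.UG.ecos

end Pool.Agent.Helper65.UG
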