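import Pool.Agent.Helper65.UG.VSS
import Pool.Agent.Helper60.UG.R

/-!
# UG R11
-/

set_option autoImplicit false
open MeasureTheory Set Filter Topology
open Pool.Agent.Helper57.Zeta Pool.Agent.Helper57.LH Pool.Agent.Helper57.ED Pool.Agent.Helper54.LG
open Pool.Agent.Helper69.UG (XX Adm PR KR rr RR VV WW wt WP NR)

namespace Pool.Agent.Helper65.UG

/-- R11: the second moment of the prime sum (`e = 1, 2`) -/
theorem vSS : ∃ C c0 T0 : ℝ, 0 < C ∧ ∀ T, T0 ≤ T → ∀ c, Adm c0 T c → ∀ v : ℝ, v ^ 2 = c / 100 → ∀ τ u e : ℝ,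
    e = 1 ∨ e = 2 → ∫ t, wt T c v τ t * SS (XX T c / e) (t + u) ^ 2 ≤ C * c * VV T c v :=
  vSS_of Pool.Agent.Helper60.UG.rr_bd

end Pool.Agent.Helper65.UG
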