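import Pool.Agent.Helper65.UG.VSS

/-!
# UG R10: the mean of the prime sum, averaged over the window
-/

set_option autoImplicit false
open MeasureTheory Set Filter Topology
open Pool.Agent.Helper57.Zeta Pool.Agent.Helper57.LH Pool.Agent.Helper57.ED Pool.Agent.Helper54.LG
open Pool.Agent.Helper69.UG (XX Adm PR KR rr RR VV WW wt WP NR)

namespace Pool.Agent.Helper65.UG

/-- Mean of `cos (w log n)` over the window. -/
noncomputable def sn (X : ℝ) (n : ℕ) : ℝ :=
  X / (2 * Real.pi) * ∫ w in (-(Real.pi / X))..(Real.pi / X), Real.cos (w * Real.log n)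

lemma sn_abs {X : ℝ} (hX : 0 < X) (n : ℕ) : |sn X n| ≤ 1 := by
  have hpi := Real.pi_pos
  have h1 : ‖∫ w in (-(Real.pi / X))..(Real.pi / X), Real.cos (w * Real.log n)‖ ≤
      1 * |Real.pi / X - -(Real.pi / X)| := by
    apply intervalIntegral.norm_integral_le_of_norm_le_const
    intro w _
    rw [Real.norm_eq_abs]
    exact Real.abs_cos_le_one _
  rw [Real.norm_eq_abs, one_mul, abs_of_pos (a := Real.pi / X - -(Real.pi / X)) (by
    have : 0 < Real.pi / X := by positivity
    linarith)] at h1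
  unfold sn
  rw [abs_mul, abs_of_pos (by positivity : 0 < X / (2 * Real.pi))]
  calc X / (2 * Real.pi) * |∫ w in (-(Real.pi / X))..(Real.pi / X), Real.cos (w * Real.log n)|
      ≤ X / (2 * Real.pi) * (Real.pi / X - -(Real.pi / X)) := mul_le_mul_of_nonneg_left h1 (by positivity)
    _ = 1 := by
        field_simp
        ring

lemma sn_lower {X : ℝ} (hX : 0 < X) {n : ℕ} (h1 : X / 4 < Real.log n) (h2 : Real.log n ≤ 3 / 4 * X) :
    1 / 4 ≤ sn X n := by
  have hpi := Real.pi_pos
  have hpi3 := Real.pi_lt_d2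
  set L := Real.log n with hL
  have hL0 : 0 < L := by linarith
  have h3 : ∫ w in (-(Real.pi / X))..(Real.pi / X), Real.cos (w * L) = 2 * Real.sin (Real.pi / X * L) / L := by
    rw [intervalIntegral.integral_comp_mul_right (f := Real.cos) hL0.ne', _root_.integral_cos, neg_mul, Real.sin_neg,
      smul_eq_mul]
    field_simp
    ring
  have h4 : sn X n = Real.sin (Real.pi / X * L) * (X / (Real.pi * L)) := by
    unfold sn
    rw [h3]
    field_simp
  have h5 : 7 / 10 ≤ Real.sin (Real.pi / X * L) := by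
    have hs : (7 / 10 : ℝ) ≤ Real.sin (Real.pi / 4) := by
      rw [Real.sin_pi_div_four]
      have : (1.4 : ℝ) ≤ Real.sqrt 2 := Real.le_sqrt_of_sq_le (by norm_num)
      linarith
    have hx1 : Real.pi / 4 ≤ Real.pi / X * L := by
      rw [div_mul_eq_mul_div, le_div_iff₀ hX]
      nlinarith
    have hx2 : Real.pi / X * L ≤ 3 / 4 * Real.pi := by
      rw [div_mul_eq_mul_div, div_le_iff₀ hX]
      nlinarith
    by_cases hc : Real.pi / X * L ≤ Real.pi / 2
    · exact hs.trans (Real.sin_le_sin_of_le_of_le_pi_div_two (by linarith) hc hx1)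
    · push Not at hc
      rw [← Real.sin_pi_sub]
      exact hs.trans (Real.sin_le_sin_of_le_of_le_pi_div_two (by linarith) (by linarith) (by linarith))
  have h6 : 4 / 10 ≤ X / (Real.pi * L) := by
    rw [le_div_iff₀ (by positivity)]
    nlinarith
  rw [h4]
  calc (1 / 4 : ℝ) ≤ 7 / 10 * (4 / 10) := by norm_num
    _ ≤ _ := mul_le_mul h5 h6 (by norm_num) (by linarith)

lemma sin_window (a L : ℝ) : ∫ w in (-a)..a, Real.sin (w * L) = 0 := by
  have h := intervalIntegral.integral_comp_neg (a := -a) (b := a) (fun w => Real.sin (w * L))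
  rw [neg_neg] at h
  have h2 : ∫ w in (-a)..a, Real.sin (-w * L) = -∫ w in (-a)..a, Real.sin (w * L) := by
    rw [← intervalIntegral.integral_neg]
    congr 1
    ext w
    rw [neg_mul, Real.sin_neg]
  linarith

lemma window_SS {X : ℝ} (t : ℝ) :
    X / (2 * Real.pi) * ∫ w in (-(Real.pi / X))..(Real.pi / X), SS X (t + w) =
      ∑ n ∈ Finset.Icc 1 ⌊Real.exp X⌋₊, cf X n * sn X n * Real.cos (t * Real.log n) := by
  simp_rw [SS_eq]
  rw [intervalIntegral.integral_finsetSum, Finset.mul_sum]
  · refine Finset.sum_congr rfl fun n _ => ?_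
    rw [intervalIntegral.integral_const_mul]
    have h1 : ∫ w in (-(Real.pi / X))..(Real.pi / X), Real.cos ((t + w) * Real.log n) =
        Real.cos (t * Real.log n) * ∫ w in (-(Real.pi / X))..(Real.pi / X), Real.cos (w * Real.log n) := by
      have h2 : ∀ w : ℝ, Real.cos ((t + w) * Real.log n) =
          Real.cos (t * Real.log n) * Real.cos (w * Real.log n) -
            Real.sin (t * Real.log n) * Real.sin (w * Real.log n) := by
        intro w
        rw [add_mul, Real.cos_add]
      simp_rw [h2]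
      rw [intervalIntegral.integral_sub, intervalIntegral.integral_const_mul, intervalIntegral.integral_const_mul,
        sin_window, mul_zero, sub_zero]
      · exact (by fun_prop : Continuous fun w : ℝ => Real.cos (t * Real.log n) * Real.cos (w * Real.log n)).intervalIntegrable _ _
      · exact (by fun_prop : Continuous fun w : ℝ => Real.sin (t * Real.log n) * Real.sin (w * Real.log n)).intervalIntegrable _ _
    rw [h1]
    unfold sn
    ring
  · intro n _
    exact (by fun_prop : Continuous fun w : ℝ => cf X n * Real.cos ((t + w) * Real.log n)).intervalIntegrable _ _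

/-- R3. -/
def StR3 : Prop := ∃ c0 T0 : ℝ, ∀ T, T0 ≤ T → ∀ c, Adm c0 T c →
    (∀ p ∈ PR T c, p.Prime ∧ Real.log T ^ 4 < p ∧ XX T c / 4 < Real.log p ∧ Real.log p ≤ 3 / 4 * XX T c) ∧
    1 / 2 ≤ ∑ p ∈ PR T c, (1 / p : ℝ) ∧ ∑ p ∈ PR T c, (1 / p : ℝ) ≤ 2

/-- R4. -/
def StR4 : Prop := ∃ c0 T0 : ℝ, ∀ T, T0 ≤ T → ∀ c, Adm c0 T c → ∀ v : ℝ, v ^ 2 = c / 100 → ∀ p ∈ PR T c,
    v ^ 2 / 2 * VV T c v ≤ v * WP T c v p ∧ |WP T c v p| ≤ |v| * VV T c v

/-- R9. -/
def StR9 : Prop := ∃ c0 T0 : ℝ, ∀ T, T0 ≤ T → ∀ c, Adm c0 T c → ∀ v : ℝ, v ^ 2 = c / 100 → ∀ τ u : ℝ, ∀ n : ℕ,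
    IsPrimePow n → (n : ℝ) ≤ Real.exp (XX T c) →
    |(∫ t, wt T c v τ t * Real.cos ((t + u) * Real.log n)) -
      (if n ∈ PR T c then WP T c v n / √n * Real.cos (u * Real.log n) else 0)| ≤ 1 / T

theorem eSS_of (hR2 : StR2) (hR3 : StR3) (hR4 : StR4) (hR9 : StR9) :
    ∃ κ c0 T0 : ℝ, 0 < κ ∧ ∀ T, T0 ≤ T → ∀ c, Adm c0 T c → ∀ v : ℝ, v ^ 2 = c / 100 → ∀ τ : ℝ,
    κ * v ^ 2 * VV T c v ≤ v * ∫ t, wt T c v τ t *
      (XX T c / (2 * Real.pi) * ∫ w in (-(Real.pi / XX T c))..(Real.pi / XX T c), SS (XX T c) (t + w)) := by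
  obtain ⟨c2, T2, hR2⟩ := hR2
  obtain ⟨c3, T3, hR3⟩ := hR3
  obtain ⟨c4, T4, hR4⟩ := hR4
  obtain ⟨c9, T9, hR9⟩ := hR9
  refine ⟨1 / 1024, max (max c2 c3) (max (max c4 c9) 100),
    max (max T2 T3) (max (max T4 T9) (max (Real.exp (Real.exp 1)) 4194304)), by norm_num, ?_⟩
  intro T hT c hadm v hv τ
  simp only [max_le_iff] at hT
  obtain ⟨⟨hT2, hT3⟩, ⟨hT4, hT9⟩, hTe, hTb⟩ := hT
  have hadm0 := hadm
  unfold Adm at hadm
  obtain ⟨hc0, hadm⟩ := hadm
  simp only [max_le_iff] at hc0
  obtain ⟨⟨hc2, hc3⟩, ⟨hc4, hc9⟩, hc100⟩ := hc0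
  obtain ⟨hT1, hlog1, hX16, hXlog, hXe, hcX⟩ := adm_facts hTe (by linarith) hadm
  have hT0 : 0 < T := by linarith
  have hV := (hR2 T hT2 c ⟨hc2, hadm⟩ v hv 0).2
  obtain ⟨hP, hP1, -⟩ := hR3 T hT3 c ⟨hc3, hadm⟩
  have h4 := hR4 T hT4 c ⟨hc4, hadm⟩ v hv
  have h9 := hR9 T hT9 c ⟨hc9, hadm⟩ v hv τ 0
  set X := XX T c with hXdef
  have hX0 : 0 < X := by linarith
  set N := ⌊Real.exp X⌋₊ with hN
  have hNle : (N : ℝ) ≤ T ^ (1 / 16 : ℝ) := (Nat.floor_le (Real.exp_pos X).le).trans hXe
  have hv2 : 1 ≤ v ^ 2 := by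
    rw [hv]
    linarith
  have hvabs : |v| ≤ v ^ 2 := by
    rw [← sq_abs]
    have : 1 ≤ |v| := by
      rw [← sq_abs] at hv2
      nlinarith [abs_nonneg v]
    nlinarith
  set E : ℕ → ℝ := fun n => ∫ t, wt T c v τ t * Real.cos (t * Real.log n) with hE
  -- the integral
  have hint : ∫ t, wt T c v τ t * (X / (2 * Real.pi) * ∫ w in (-(Real.pi / X))..(Real.pi / X), SS X (t + w)) =
      ∑ n ∈ Finset.Icc 1 N, cf X n * sn X n * E n := by
    simp_rw [window_SS, Finset.mul_sum]
    rw [integral_finsetSum]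
    · refine Finset.sum_congr rfl fun n _ => ?_
      rw [hE, ← integral_const_mul]
      congr 1
      ext t
      ring
    · intro n _
      have h := int_wt (T := T) (c := c) (v := v) (τ := τ) hT0
        (f := fun t => cf X n * sn X n * Real.cos (t * Real.log n)) (by fun_prop)
        (C := |cf X n * sn X n|) (fun t => by
          rw [abs_mul]
          exact mul_le_of_le_one_right (abs_nonneg _) (Real.abs_cos_le_one _))
      exact h
  rw [hint, Finset.mul_sum]
  -- pointwise
  have hpt : ∀ n ∈ Finset.Icc 1 N, cf X n * sn X n * (if n ∈ PR T c then v * WP T c v n / √n else 0) - 2 * |v| / T ≤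
      v * (cf X n * sn X n * E n) := by
    intro n hn
    obtain ⟨hcf0, -, hcf2, -⟩ := cf_bd hX0 hn
    by_cases hΛ : ArithmeticFunction.vonMangoldt n = 0
    · have hz : cf X n = 0 := by
        unfold cf
        rw [hΛ]
        simp
      rw [hz]
      simp only [zero_mul, mul_zero, zero_sub]
      have : 0 ≤ 2 * |v| / T := by positivity
      linarith
    · have hpp : IsPrimePow n := ArithmeticFunction.vonMangoldt_ne_zero_iff.1 hΛ
      have hle : (n : ℝ) ≤ Real.exp X := (Nat.le_floor_iff (Real.exp_pos X).le).1 (Finset.mem_Icc.1 hn).2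
      have h10 := h9 n hpp hle
      simp only [add_zero, zero_mul, Real.cos_zero, mul_one] at h10
      set I := (if n ∈ PR T c then WP T c v n / √n else 0) with hI
      have hI2 : (if n ∈ PR T c then v * WP T c v n / √n else 0) = v * I := by
        rw [hI]
        split_ifs
        · ring
        · simp
      rw [hI2]
      have h11 : |cf X n * sn X n * (v * (E n - I))| ≤ 2 * |v| / T := by
        rw [abs_mul, abs_mul, abs_mul, abs_of_nonneg hcf0]
        calc cf X n * |sn X n| * (|v| * |E n - I|) ≤ 2 * 1 * (|v| * (1 / T)) := by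
              apply mul_le_mul
              · exact mul_le_mul hcf2 (sn_abs hX0 n) (abs_nonneg _) (by norm_num)
              · exact mul_le_mul_of_nonneg_left h10 (abs_nonneg _)
              · positivity
              · norm_num
          _ = 2 * |v| / T := by ring
      have h12 := neg_abs_le (cf X n * sn X n * (v * (E n - I)))
      have h13 : v * (cf X n * sn X n * E n) = cf X n * sn X n * (v * I) + cf X n * sn X n * (v * (E n - I)) := by
        ring
      rw [h13]
      linarith
  have hsum := Finset.sum_le_sum hpt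
  rw [Finset.sum_sub_distrib, Finset.sum_const, Nat.card_Icc, Nat.add_sub_cancel, nsmul_eq_mul] at hsum
  refine le_trans ?_ hsum
  -- main term
  have hmain : v ^ 2 * VV T c v / 512 ≤
      ∑ n ∈ Finset.Icc 1 N, cf X n * sn X n * (if n ∈ PR T c then v * WP T c v n / √n else 0) := by
    have hsub : PR T c ⊆ Finset.Icc 1 N := by
      intro p hp
      obtain ⟨hpp, -, -, hpl⟩ := hP p hp
      have hp0 : (0:ℝ) < p := by exact_mod_cast hpp.pos
      rw [Finset.mem_Icc]
      refine ⟨hpp.one_le, ?_⟩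
      rw [hN, Nat.le_floor_iff (Real.exp_pos X).le, ← Real.log_le_iff_le_exp hp0]
      linarith
    have h14 : ∑ n ∈ Finset.Icc 1 N, cf X n * sn X n * (if n ∈ PR T c then v * WP T c v n / √n else 0) =
        ∑ p ∈ PR T c, cf X p * sn X p * (v * WP T c v p / √p) := by
      symm
      rw [← Finset.sum_subset hsub]
      · refine Finset.sum_congr rfl fun p hp => ?_
        rw [if_pos hp]
      · intro n _ hn
        rw [if_neg hn, mul_zero]
    rw [h14]
    have h15 : ∀ p ∈ PR T c, v ^ 2 * VV T c v / 256 * (1 / p : ℝ) ≤ cf X p * sn X p * (v * WP T c v p / √p) := by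
      intro p hp
      obtain ⟨hpp, -, hpg, hpl⟩ := hP p hp
      have hp0 : (0:ℝ) < p := by exact_mod_cast hpp.pos
      have hs0 : 0 < √(p:ℝ) := Real.sqrt_pos.2 hp0
      have hss : √(p:ℝ) * √(p:ℝ) = p := Real.mul_self_sqrt hp0.le
      have h16 : 1 / (32 * √(p:ℝ)) ≤ cf X p := by
        unfold cf
        rw [ArithmeticFunction.vonMangoldt_apply_prime hpp]
        have h17 : 1 / 4 ≤ 1 - Real.log p / X := by
          have : Real.log p / X ≤ 3 / 4 := by
            rw [div_le_iff₀ hX0]
            exact hpl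
          linarith
        have h18 : (1 / 16 : ℝ) ≤ (1 - Real.log p / X) ^ 2 := by nlinarith
        calc 1 / (32 * √(p:ℝ)) = 2 / X * ((X / 4) / √(p:ℝ) * (1 / 16)) := by
              have hX0' := hX0.ne'
              have hs0' := hs0.ne'
              field_simp
              try norm_num
          _ ≤ 2 / X * (Real.log p / √(p:ℝ) * (1 - Real.log p / X) ^ 2) := by
              apply mul_le_mul_of_nonneg_left _ (by positivity)
              apply mul_le_mul _ h18 (by norm_num) (by
                have : 0 < Real.log p := by linarith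
                positivity)
              exact div_le_div_of_nonneg_right hpg.le hs0.le
      have h19 := sn_lower hX0 hpg hpl
      have h20 := (h4 p hp).1
      have h21 : 0 ≤ v ^ 2 / 2 * VV T c v := by positivity
      calc v ^ 2 * VV T c v / 256 * (1 / p : ℝ) =
            (1 / (32 * √(p:ℝ))) * (1 / 4) * ((v ^ 2 / 2 * VV T c v) / √(p:ℝ)) := by
            have h22 : (1 / p : ℝ) = 1 / (√(p:ℝ) * √(p:ℝ)) := by rw [hss]
            rw [h22]
            field_simp
            ring
        _ ≤ cf X p * sn X p * (v * WP T c v p / √p) := by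
            have h23 : 0 < 1 / (32 * √(p:ℝ)) := by positivity
            apply mul_le_mul
            · exact mul_le_mul h16 h19 (by norm_num) (by linarith)
            · exact div_le_div_of_nonneg_right h20 hs0.le
            · positivity
            · exact mul_nonneg (by linarith) (by linarith)
    calc v ^ 2 * VV T c v / 512 = v ^ 2 * VV T c v / 256 * (1 / 2) := by ring
      _ ≤ v ^ 2 * VV T c v / 256 * ∑ p ∈ PR T c, (1 / p : ℝ) := by
          apply mul_le_mul_of_nonneg_left hP1
          positivity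
      _ = ∑ p ∈ PR T c, v ^ 2 * VV T c v / 256 * (1 / p : ℝ) := by rw [Finset.mul_sum]
      _ ≤ _ := Finset.sum_le_sum h15
  have herr : (N : ℝ) * (2 * |v| / T) ≤ v ^ 2 * VV T c v / 1024 := by
    have hsq : √T * √T = T := Real.mul_self_sqrt hT0.le
    have hsq2 : 2048 ≤ √T := Real.le_sqrt_of_sq_le (by linarith)
    have hN2 : (N : ℝ) ≤ √T := by
      rw [Real.sqrt_eq_rpow]
      exact hNle.trans (Real.rpow_le_rpow_of_exponent_le hT1 (by norm_num))
    have h24 : (N : ℝ) / T ≤ 1 / 2048 := by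
      rw [div_le_div_iff₀ hT0 (by norm_num)]
      nlinarith
    calc (N : ℝ) * (2 * |v| / T) = (2 * |v|) * ((N : ℝ) / T) := by ring
      _ ≤ (2 * |v|) * (1 / 2048) := mul_le_mul_of_nonneg_left h24 (by positivity)
      _ = |v| / 1024 := by ring
      _ ≤ v ^ 2 * VV T c v / 1024 := by
          apply div_le_div_of_nonneg_right _ (by norm_num)
          nlinarith
  have h25 : 1 / 1024 * v ^ 2 * VV T c v = v ^ 2 * VV T c v / 512 - v ^ 2 * VV T c v / 1024 := by ring
  rw [h25]
  linarith

end Pool.Agent.Helper65.UG
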