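import Pool.Agent.Helper54.LG.Cos

/-!
# UG: mean square of a Dirichlet polynomial with the Poisson kernel

`∫ PW W (t - τ) ‖∑ i, b i (k i)^(-it)‖²`: the square is expanded, `integral_cexp` gives
`exp (-W |log (k i / k j)|)` for the pair `i, j`, at most `exp (-W / N)` if `k i ≠ k j`, `k i, k j ≤ N`.
-/

set_option autoImplicit false
open MeasureTheory Set Filter Topology
open Pool.Agent.Helper57.Zeta Pool.Agent.Helper57.LH Pool.Agent.Helper57.ED Pool.Agent.Helper54.LG

namespace Pool.Agent.Helper65.UG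

/-- `e^{-it log k}`. -/
noncomputable def ee (k : ℕ) (t : ℝ) : ℂ := Complex.exp (Complex.I * ((-Real.log k * t : ℝ) : ℂ))

lemma ee_norm (k : ℕ) (t : ℝ) : ‖ee k t‖ = 1 := by
  unfold ee
  rw [mul_comm, Complex.norm_exp_ofReal_mul_I]

lemma ee_cont (k : ℕ) : Continuous (ee k) := by
  unfold ee
  fun_prop

lemma ee_mul {m n : ℕ} (hm : m ≠ 0) (hn : n ≠ 0) (t : ℝ) : ee (m * n) t = ee m t * ee n t := by
  unfold ee
  rw [← Complex.exp_add]
  congr 1
  have hm' : (m : ℝ) ≠ 0 := by exact_mod_cast hm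
  have hn' : (n : ℝ) ≠ 0 := by exact_mod_cast hn
  rw [Nat.cast_mul, Real.log_mul hm' hn']
  push_cast
  ring

lemma ee_add (n : ℕ) (t u : ℝ) : ee n (t + u) = ee n t * ee n u := by
  unfold ee
  rw [← Complex.exp_add]
  congr 1
  push_cast
  ring

lemma log_sep {m n N : ℕ} (hm : 1 ≤ m) (hmN : m ≤ N) (hn : 1 ≤ n) (hnN : n ≤ N) (hne : m ≠ n) :
    1 / (N : ℝ) ≤ |Real.log m - Real.log n| := by
  have key : ∀ {a b : ℕ}, 1 ≤ a → a < b → b ≤ N → 1 / (N : ℝ) ≤ Real.log b - Real.log a := by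
    intro a b ha hab hb
    have ha0 : (0:ℝ) < a := by exact_mod_cast ha
    have hb0 : (0:ℝ) < b := by exact_mod_cast (by omega : 0 < b)
    have hN0 : (0:ℝ) < N := by exact_mod_cast (by omega : 0 < N)
    have h1 : Real.log (a / b) ≤ (a : ℝ) / b - 1 := by
      have := Real.log_le_sub_one_of_pos (show (0:ℝ) < a / b by positivity)
      linarith
    rw [Real.log_div ha0.ne' hb0.ne'] at h1
    have h2 : (a : ℝ) / b - 1 ≤ -(1 / N) := by
      have h3 : (a : ℝ) + 1 ≤ b := by exact_mod_cast hab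
      have h4 : (b : ℝ) ≤ N := by exact_mod_cast hb
      have h5 : (a : ℝ) / b - 1 = -((b - a) / b) := by
        field_simp
        ring
      rw [h5]
      have h6 : 1 / (N : ℝ) ≤ (b - a) / b := by
        calc 1 / (N : ℝ) ≤ 1 / b := one_div_le_one_div_of_le hb0 h4
          _ ≤ (b - a) / b := by
            apply div_le_div_of_nonneg_right _ hb0.le
            linarith
      linarith
    linarith
  rcases lt_or_gt_of_ne hne with h | h
  · have := key hm h hnN
    rw [abs_sub_comm]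
    exact this.trans (le_abs_self _)
  · have := key hn h hmN
    exact this.trans (le_abs_self _)

lemma int_PW {W : ℝ} (hW : 0 < W) (τ : ℝ) : Integrable fun t => PW W (t - τ) :=
  (integral_PW hW).1.comp_sub_right τ

lemma PW_cont' {W : ℝ} (hW : 0 < W) (τ : ℝ) : Continuous fun t => PW W (t - τ) := by
  unfold PW
  apply Continuous.div continuous_const (by fun_prop)
  intro t
  have := Real.pi_pos
  positivity

/-- Bounded continuous functions are integrable against the Poisson kernel. -/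
lemma int_PW_bdd {W : ℝ} (hW : 0 < W) (τ : ℝ) {f : ℝ → ℝ} (hf : Continuous f) {C : ℝ} (hC : ∀ t, |f t| ≤ C) :
    Integrable fun t => PW W (t - τ) * f t := by
  refine Integrable.mul_bdd (c := C) (int_PW hW τ) hf.aestronglyMeasurable ?_
  exact Eventually.of_forall fun t => by
    rw [Real.norm_eq_abs]
    exact hC t

variable {ι : Type*}

theorem mv {W : ℝ} (hW : 0 < W) (τ : ℝ) (s : Finset ι) (k : ι → ℕ) (b : ι → ℂ) {N : ℕ}
    (hk : ∀ i ∈ s, 1 ≤ k i ∧ k i ≤ N) :
    ∫ t, PW W (t - τ) * ‖∑ i ∈ s, b i * ee (k i) t‖ ^ 2 ≤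
      (∑ i ∈ s, ∑ j ∈ s, if k i = k j then ‖b i‖ * ‖b j‖ else 0) +
        (∑ i ∈ s, ‖b i‖) ^ 2 * Real.exp (-(W / N)) := by
  have hterm : ∀ t : ℝ, ((PW W (t - τ) * ‖∑ i ∈ s, b i * ee (k i) t‖ ^ 2 : ℝ) : ℂ) =
      ∑ i ∈ s, ∑ j ∈ s, (b i * (starRingEnd ℂ) (b j)) * ((PW W (t - τ) : ℂ) *
        Complex.exp (Complex.I * (((Real.log (k j) - Real.log (k i)) * t : ℝ) : ℂ))) := by
    intro t
    have h1 : ((‖∑ i ∈ s, b i * ee (k i) t‖ ^ 2 : ℝ) : ℂ) =
        (∑ i ∈ s, b i * ee (k i) t) * (starRingEnd ℂ) (∑ i ∈ s, b i * ee (k i) t) := by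
      rw [Complex.mul_conj, Complex.normSq_eq_norm_sq]
    rw [Complex.ofReal_mul, h1, map_sum, Finset.sum_mul_sum, Finset.mul_sum]
    refine Finset.sum_congr rfl fun i _ => ?_
    rw [Finset.mul_sum]
    refine Finset.sum_congr rfl fun j _ => ?_
    have h2 : ee (k i) t * (starRingEnd ℂ) (ee (k j) t) =
        Complex.exp (Complex.I * (((Real.log (k j) - Real.log (k i)) * t : ℝ) : ℂ)) := by
      unfold ee
      rw [← Complex.exp_conj, ← Complex.exp_add, map_mul, Complex.conj_ofReal, Complex.conj_I]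
      congr 1
      push_cast
      ring
    rw [map_mul, ← h2]
    ring
  have hint : ∀ u : ℝ, Integrable fun t : ℝ => (PW W (t - τ) : ℂ) * Complex.exp (Complex.I * ((u * t : ℝ) : ℂ)) := by
    intro u
    refine Integrable.mul_bdd (c := 1) (int_PW hW τ).ofReal ?_ ?_
    · apply Continuous.aestronglyMeasurable
      fun_prop
    · exact Eventually.of_forall fun t => by
        rw [mul_comm, Complex.norm_exp_ofReal_mul_I]
  have hval : ((∫ t, PW W (t - τ) * ‖∑ i ∈ s, b i * ee (k i) t‖ ^ 2 : ℝ) : ℂ) =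
      ∑ i ∈ s, ∑ j ∈ s, (b i * (starRingEnd ℂ) (b j)) * ((Real.exp (-(W * |Real.log (k j) - Real.log (k i)|)) : ℂ) *
        Complex.exp (Complex.I * (((Real.log (k j) - Real.log (k i)) * τ : ℝ) : ℂ))) := by
    rw [← integral_complex_ofReal]
    simp_rw [hterm]
    rw [integral_finsetSum]
    · refine Finset.sum_congr rfl fun i _ => ?_
      rw [integral_finsetSum]
      · refine Finset.sum_congr rfl fun j _ => ?_
        rw [integral_const_mul, integral_cexp hW]
      · intro j _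
        exact (hint _).const_mul _
    · intro i _
      exact integrable_finsetSum _ fun j _ => (hint _).const_mul _
  have hnorm : ∫ t, PW W (t - τ) * ‖∑ i ∈ s, b i * ee (k i) t‖ ^ 2 ≤
      ∑ i ∈ s, ∑ j ∈ s, ‖b i‖ * ‖b j‖ * Real.exp (-(W * |Real.log (k j) - Real.log (k i)|)) := by
    calc ∫ t, PW W (t - τ) * ‖∑ i ∈ s, b i * ee (k i) t‖ ^ 2
        ≤ ‖((∫ t, PW W (t - τ) * ‖∑ i ∈ s, b i * ee (k i) t‖ ^ 2 : ℝ) : ℂ)‖ := by
          rw [Complex.norm_real]
          exact Real.le_norm_self _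
      _ ≤ _ := by
          rw [hval]
          refine (norm_sum_le _ _).trans (Finset.sum_le_sum fun i _ => ?_)
          refine (norm_sum_le _ _).trans (Finset.sum_le_sum fun j _ => ?_)
          rw [norm_mul, norm_mul, norm_mul, RCLike.norm_conj, Complex.norm_real, Real.norm_eq_abs, Real.abs_exp,
            mul_comm Complex.I, Complex.norm_exp_ofReal_mul_I, mul_one]
  refine hnorm.trans ?_
  have hpt : ∀ i ∈ s, ∀ j ∈ s, ‖b i‖ * ‖b j‖ * Real.exp (-(W * |Real.log (k j) - Real.log (k i)|)) ≤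
      (if k i = k j then ‖b i‖ * ‖b j‖ else 0) + ‖b i‖ * ‖b j‖ * Real.exp (-(W / N)) := by
    intro i hi j hj
    have h0 : 0 ≤ ‖b i‖ * ‖b j‖ := by positivity
    split_ifs with h
    · rw [h, sub_self, abs_zero, mul_zero, neg_zero, Real.exp_zero, mul_one]
      have : 0 ≤ ‖b i‖ * ‖b j‖ * Real.exp (-(W / N)) := by positivity
      linarith
    · rw [zero_add]
      apply mul_le_mul_of_nonneg_left _ h0
      apply Real.exp_le_exp.2
      apply neg_le_neg
      have h3 := log_sep (hk j hj).1 (hk j hj).2 (hk i hi).1 (hk i hi).2 (fun e => h e.symm)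
      calc W / N = W * (1 / N) := by ring
        _ ≤ _ := mul_le_mul_of_nonneg_left h3 hW.le
  calc _ ≤ ∑ i ∈ s, ∑ j ∈ s, ((if k i = k j then ‖b i‖ * ‖b j‖ else 0) + ‖b i‖ * ‖b j‖ * Real.exp (-(W / N))) :=
        Finset.sum_le_sum fun i hi => Finset.sum_le_sum fun j hj => hpt i hi j hj
    _ = _ := by
        simp_rw [Finset.sum_add_distrib]
        congr 1
        rw [sq, Finset.sum_mul_sum, Finset.sum_mul]
        refine Finset.sum_congr rfl fun i _ => ?_
        rw [Finset.sum_mul]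

end Pool.Agent.Helper65.UG
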