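import Pool.Agent.Helper65.UG.Base

/-!
# UG R11: second moment of the prime sum

`SS² ≤ ‖DD‖²`, and `RR DD` is a Dirichlet polynomial. In the diagonal
`|r(m) r(m')| ≤ (r(m)² + r(m')²)/2` and `∑_{n | k} Λ(n) = log k`.
-/

set_option autoImplicit false
open MeasureTheory Set Filter Topology
open Pool.Agent.Helper57.Zeta Pool.Agent.Helper57.LH Pool.Agent.Helper57.ED Pool.Agent.Helper54.LG
open Pool.Agent.Helper69.UG (XX Adm PR KR rr RR VV WW wt WP NR)

namespace Pool.Agent.Helper65.UG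

lemma inner_sum {M N : ℕ} {η : ℝ} (hη : 0 ≤ η) {k : ℕ} (hk : k ≠ 0) :
    (∑ j ∈ Finset.Icc 1 M ×ˢ Finset.Icc 1 N,
      if k = j.1 * j.2 then η * ArithmeticFunction.vonMangoldt j.2 else 0) ≤ η * Real.log k := by
  have hL : ∀ n, 0 ≤ η * ArithmeticFunction.vonMangoldt n := fun n =>
    mul_nonneg hη ArithmeticFunction.vonMangoldt_nonneg
  rw [Finset.sum_product_right]
  have h1 : ∀ n ∈ Finset.Icc 1 N, (∑ m ∈ Finset.Icc 1 M,
      if k = m * n then η * ArithmeticFunction.vonMangoldt n else 0) ≤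
      if n ∣ k then η * ArithmeticFunction.vonMangoldt n else 0 := by
    intro n hn
    have hn1 : 0 < n := by
      have := (Finset.mem_Icc.1 hn).1
      omega
    split_ifs with hd
    · obtain ⟨q, hq⟩ := hd
      calc (∑ m ∈ Finset.Icc 1 M, if k = m * n then η * ArithmeticFunction.vonMangoldt n else 0)
          ≤ ∑ m ∈ Finset.Icc 1 M, if m = q then η * ArithmeticFunction.vonMangoldt n else 0 := by
            refine Finset.sum_le_sum fun m _ => ?_
            by_cases h : k = m * n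
            · have : m = q := by
                have h2 : m * n = q * n := by rw [← h, hq, mul_comm]
                exact Nat.eq_of_mul_eq_mul_right hn1 h2
              rw [if_pos h, if_pos this]
            · rw [if_neg h]
              split_ifs
              · exact hL n
              · exact le_rfl
        _ ≤ η * ArithmeticFunction.vonMangoldt n := by
            rw [Finset.sum_ite_eq']
            split_ifs
            · exact le_rfl
            · exact hL n
    · refine le_of_eq (Finset.sum_eq_zero fun m _ => ?_)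
      rw [if_neg]
      intro h
      exact hd ⟨m, by rw [h, mul_comm]⟩
  refine (Finset.sum_le_sum h1).trans ?_
  rw [← Finset.sum_filter, ← Finset.mul_sum]
  apply mul_le_mul_of_nonneg_left _ hη
  rw [← ArithmeticFunction.vonMangoldt_sum]
  apply Finset.sum_le_sum_of_subset_of_nonneg
  · intro n hn
    rw [Finset.mem_filter] at hn
    exact Nat.mem_divisors.2 ⟨hn.2, hk⟩
  · intro n _ _
    exact ArithmeticFunction.vonMangoldt_nonneg

lemma diag {M N : ℕ} (α c : ℕ → ℝ) {η K : ℝ} (hη : 0 ≤ η)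
    (hc : ∀ n ∈ Finset.Icc 1 N, 0 ≤ c n ∧ c n ≤ η * ArithmeticFunction.vonMangoldt n / Real.sqrt n)
    (hK : ∀ m ∈ Finset.Icc 1 M, ∀ n ∈ Finset.Icc 1 N, η * Real.log ((m * n : ℕ) : ℝ) ≤ K) :
    (∑ i ∈ Finset.Icc 1 M ×ˢ Finset.Icc 1 N, ∑ j ∈ Finset.Icc 1 M ×ˢ Finset.Icc 1 N,
      if i.1 * i.2 = j.1 * j.2 then (|α i.1| / Real.sqrt i.1 * c i.2) * (|α j.1| / Real.sqrt j.1 * c j.2) else 0) ≤
      K * ((∑ m ∈ Finset.Icc 1 M, α m ^ 2 / m) *
        (∑ n ∈ Finset.Icc 1 N, η * ArithmeticFunction.vonMangoldt n / n)) := by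
  set s := Finset.Icc 1 M ×ˢ Finset.Icc 1 N with hs
  set Λ := ArithmeticFunction.vonMangoldt with hΛ
  have hL : ∀ n, 0 ≤ η * Λ n := fun n => mul_nonneg hη ArithmeticFunction.vonMangoldt_nonneg
  set G : ℕ × ℕ → ℕ × ℕ → ℝ := fun i j =>
    if i.1 * i.2 = j.1 * j.2 then (α i.1 ^ 2 / i.1 * (η * Λ i.2 / i.2)) * (η * Λ j.2) else 0 with hG
  have hterm : ∀ i ∈ s, ∀ j ∈ s,
      (if i.1 * i.2 = j.1 * j.2 then (|α i.1| / Real.sqrt i.1 * c i.2) * (|α j.1| / Real.sqrt j.1 * c j.2) else 0) ≤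
      (G i j + G j i) / 2 := by
    intro i hi j hj
    rw [hs, Finset.mem_product] at hi hj
    by_cases h : i.1 * i.2 = j.1 * j.2
    · rw [if_pos h, hG]
      simp only
      rw [if_pos h, if_pos h.symm]
      have hi1 : (0:ℝ) < i.1 := by exact_mod_cast (Finset.mem_Icc.1 hi.1).1
      have hi2 : (0:ℝ) < i.2 := by exact_mod_cast (Finset.mem_Icc.1 hi.2).1
      have hj1 : (0:ℝ) < j.1 := by exact_mod_cast (Finset.mem_Icc.1 hj.1).1
      have hj2 : (0:ℝ) < j.2 := by exact_mod_cast (Finset.mem_Icc.1 hj.2).1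
      have hk : (i.1 : ℝ) * i.2 = j.1 * j.2 := by exact_mod_cast h
      have hci := hc _ hi.2
      have hcj := hc _ hj.2
      have e1 : (|α i.1| / Real.sqrt i.1 * c i.2) * (|α j.1| / Real.sqrt j.1 * c j.2) ≤
          (|α i.1| / Real.sqrt i.1 * (η * Λ i.2 / Real.sqrt i.2)) *
            (|α j.1| / Real.sqrt j.1 * (η * Λ j.2 / Real.sqrt j.2)) := by
        apply mul_le_mul
        · exact mul_le_mul_of_nonneg_left hci.2 (by positivity)
        · exact mul_le_mul_of_nonneg_left hcj.2 (by positivity)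
        · exact mul_nonneg (by positivity) hcj.1
        · have := hL i.2
          positivity
      refine e1.trans ?_
      have e2 : Real.sqrt i.1 * Real.sqrt i.2 * (Real.sqrt j.1 * Real.sqrt j.2) = i.1 * i.2 := by
        rw [← Real.sqrt_mul hi1.le, ← Real.sqrt_mul hj1.le, ← hk, Real.mul_self_sqrt (by positivity)]
      have e3 : (|α i.1| / Real.sqrt i.1 * (η * Λ i.2 / Real.sqrt i.2)) *
            (|α j.1| / Real.sqrt j.1 * (η * Λ j.2 / Real.sqrt j.2)) =
          |α i.1| * |α j.1| * ((η * Λ i.2) * (η * Λ j.2)) / (i.1 * i.2) := by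
        rw [← e2]
        have := Real.sqrt_pos.2 hi1
        have := Real.sqrt_pos.2 hi2
        have := Real.sqrt_pos.2 hj1
        have := Real.sqrt_pos.2 hj2
        field_simp
      have e4 : (α i.1 ^ 2 / i.1 * (η * Λ i.2 / i.2)) * (η * Λ j.2) +
          (α j.1 ^ 2 / j.1 * (η * Λ j.2 / j.2)) * (η * Λ i.2) =
          (α i.1 ^ 2 + α j.1 ^ 2) * ((η * Λ i.2) * (η * Λ j.2)) / (i.1 * i.2) := by
        have e5 : (α j.1 ^ 2 / j.1 * (η * Λ j.2 / j.2)) * (η * Λ i.2) =
            α j.1 ^ 2 * ((η * Λ i.2) * (η * Λ j.2)) / (i.1 * i.2) := by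
          rw [hk]
          field_simp
        rw [e5]
        field_simp
      rw [e3, e4, le_div_iff₀ (by norm_num : (0:ℝ) < 2)]
      have e6 : 2 * (|α i.1| * |α j.1|) ≤ α i.1 ^ 2 + α j.1 ^ 2 := by
        nlinarith [sq_nonneg (|α i.1| - |α j.1|), sq_abs (α i.1), sq_abs (α j.1)]
      have e7 : 0 ≤ ((η * Λ i.2) * (η * Λ j.2)) / (i.1 * i.2) := by
        have := mul_nonneg (hL i.2) (hL j.2)
        positivity
      calc |α i.1| * |α j.1| * ((η * Λ i.2) * (η * Λ j.2)) / (i.1 * i.2) * 2 =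
            (2 * (|α i.1| * |α j.1|)) * (((η * Λ i.2) * (η * Λ j.2)) / (i.1 * i.2)) := by ring
        _ ≤ (α i.1 ^ 2 + α j.1 ^ 2) * (((η * Λ i.2) * (η * Λ j.2)) / (i.1 * i.2)) :=
            mul_le_mul_of_nonneg_right e6 e7
        _ = _ := by ring
    · rw [if_neg h, hG]
      simp only
      rw [if_neg h, if_neg (fun e => h e.symm)]
      norm_num
  have hsym : (∑ i ∈ s, ∑ j ∈ s, (G i j + G j i) / 2) = ∑ i ∈ s, ∑ j ∈ s, G i j := by
    have h1 : (∑ i ∈ s, ∑ j ∈ s, G j i) = ∑ i ∈ s, ∑ j ∈ s, G i j := Finset.sum_comm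
    have h2 : (∑ i ∈ s, ∑ j ∈ s, (G i j + G j i) / 2) =
        ((∑ i ∈ s, ∑ j ∈ s, G i j) + ∑ i ∈ s, ∑ j ∈ s, G j i) / 2 := by
      rw [← Finset.sum_add_distrib, Finset.sum_div]
      refine Finset.sum_congr rfl fun i _ => ?_
      rw [← Finset.sum_add_distrib, Finset.sum_div]
    rw [h2, h1]
    ring
  calc _ ≤ ∑ i ∈ s, ∑ j ∈ s, (G i j + G j i) / 2 :=
        Finset.sum_le_sum fun i hi => Finset.sum_le_sum fun j hj => hterm i hi j hj
    _ = ∑ i ∈ s, ∑ j ∈ s, G i j := hsym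
    _ ≤ ∑ i ∈ s, (α i.1 ^ 2 / i.1 * (η * Λ i.2 / i.2)) * K := by
        refine Finset.sum_le_sum fun i hi => ?_
        rw [hs, Finset.mem_product] at hi
        have hi1 := (Finset.mem_Icc.1 hi.1).1
        have hi2 := (Finset.mem_Icc.1 hi.2).1
        have hk0 : i.1 * i.2 ≠ 0 := Nat.mul_ne_zero (by omega) (by omega)
        have h1 : (∑ j ∈ s, G i j) = (α i.1 ^ 2 / i.1 * (η * Λ i.2 / i.2)) *
            ∑ j ∈ s, if i.1 * i.2 = j.1 * j.2 then η * Λ j.2 else 0 := by
          rw [Finset.mul_sum]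
          refine Finset.sum_congr rfl fun j _ => ?_
          rw [hG]
          simp only
          split_ifs
          · rfl
          · simp
        rw [h1]
        apply mul_le_mul_of_nonneg_left _ _
        · exact (inner_sum hη hk0).trans (hK _ hi.1 _ hi.2)
        · have := hL i.2
          positivity
    _ = _ := by
        rw [Finset.sum_mul_sum, ← Finset.sum_product', Finset.mul_sum]
        refine Finset.sum_congr rfl fun i _ => ?_
        ring


lemma adm_facts {T c : ℝ} (hT : Real.exp (Real.exp 1) ≤ T) (hc : 16 ≤ c)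
    (h : c * Real.log (Real.log T) ≤ Real.log T / 16) :
    1 ≤ T ∧ 1 ≤ Real.log T ∧ 16 ≤ XX T c ∧ XX T c ≤ Real.log T / 16 ∧ Real.exp (XX T c) ≤ T ^ (1 / 16 : ℝ) ∧
      c * XX T c = Real.log T := by
  have hT0 : 0 < T := (Real.exp_pos _).trans_le hT
  have h1 : Real.exp 1 ≤ Real.log T := (Real.le_log_iff_exp_le hT0).2 hT
  have h2 : (1:ℝ) ≤ Real.exp 1 := by
    have := Real.add_one_le_exp (1:ℝ)
    linarith
  have h3 : 1 ≤ Real.log T := h2.trans h1
  have h4 : 1 ≤ Real.log (Real.log T) := (Real.le_log_iff_exp_le (by linarith)).2 h1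
  have hc0 : 0 < c := by linarith
  have h5 : 16 ≤ XX T c := by
    unfold XX
    rw [le_div_iff₀ hc0]
    nlinarith
  have h6 : XX T c ≤ Real.log T / 16 := by
    unfold XX
    exact div_le_div_of_nonneg_left (by linarith) (by norm_num) hc
  have h7 : 1 ≤ T := by
    have := Real.add_one_le_exp (Real.exp 1)
    linarith
  refine ⟨h7, h3, h5, h6, ?_, ?_⟩
  · rw [Real.rpow_def_of_pos hT0]
    apply Real.exp_le_exp.2
    calc XX T c ≤ Real.log T / 16 := h6
      _ = Real.log T * (1 / 16) := by ring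
  · unfold XX
    field_simp

/-- The statement R2. -/
def StR2 : Prop := ∃ c0 T0 : ℝ, ∀ T, T0 ≤ T → ∀ c, Adm c0 T c → ∀ v : ℝ, v ^ 2 = c / 100 → ∀ n,
    |rr T c v n| ≤ T ^ (1 / 192 : ℝ) ∧ 1 ≤ VV T c v

theorem vSS_of (hR2 : StR2) : ∃ C c0 T0 : ℝ, 0 < C ∧ ∀ T, T0 ≤ T → ∀ c, Adm c0 T c → ∀ v : ℝ, v ^ 2 = c / 100 → ∀ τ u e : ℝ,
    e = 1 ∨ e = 2 → ∫ t, wt T c v τ t * SS (XX T c / e) (t + u) ^ 2 ≤ C * c * VV T c v := by
  obtain ⟨c1, T1, hR2⟩ := hR2
  have hCM := Pool.Agent.Helper57.LS.CMe_pos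
  refine ⟨6 + Pool.Agent.Helper57.LS.CMe, max c1 16, max T1 (Real.exp (Real.exp 1)), by linarith, ?_⟩
  intro T hT c hadm v hv τ u e he
  have hc16 : 16 ≤ c := (le_max_right _ _).trans hadm.1
  have hadm1 : Adm c1 T c := ⟨(le_max_left _ _).trans hadm.1, hadm.2⟩
  obtain ⟨hT1, hlog1, hX16, hXlog, hXe, hcX⟩ := adm_facts ((le_max_right _ _).trans hT) hc16 hadm.2
  have hT0 : 0 < T := by linarith
  have hr := fun n => (hR2 T ((le_max_left _ _).trans hT) c hadm1 v hv n).1
  have hV := (hR2 T ((le_max_left _ _).trans hT) c hadm1 v hv 0).2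
  set X := XX T c / e with hXdef
  have he1 : 1 ≤ e ∧ e ≤ 2 := by rcases he with h | h <;> rw [h] <;> norm_num
  have he0 : 0 < e := by linarith [he1.1]
  have hX8 : 8 ≤ X := by
    rw [hXdef, le_div_iff₀ he0]
    nlinarith [he1.2]
  have hX0 : 0 < X := by linarith
  have hXX : X ≤ XX T c := by
    rw [hXdef, div_le_iff₀ he0]
    nlinarith [he1.1]
  have hXe' : Real.exp X ≤ T ^ (1 / 16 : ℝ) := (Real.exp_le_exp.2 hXX).trans hXe
  set M := NR T with hM
  set N := ⌊Real.exp X⌋₊ with hN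
  have hMle : (M : ℝ) ≤ T ^ (1 / 8 : ℝ) := Nat.floor_le (by positivity)
  have hNle : (N : ℝ) ≤ T ^ (1 / 16 : ℝ) := (Nat.floor_le (Real.exp_pos X).le).trans hXe'
  have hM1 : 1 ≤ M := (Nat.one_le_floor_iff _).2 (Real.one_le_rpow hT1 (by norm_num))
  have hN1 : 1 ≤ N := (Nat.one_le_floor_iff _).2 (Real.one_le_exp hX0.le)
  set s := Finset.Icc 1 M ×ˢ Finset.Icc 1 N with hs
  set b : ℕ × ℕ → ℂ := fun i => (((rr T c v i.1 / Real.sqrt i.1 : ℝ) : ℂ) * (cf X i.2 : ℂ)) * ee i.2 u with hb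
  have hW : 0 < WW T := Real.rpow_pos_of_pos hT0 _
  -- the product
  have hprod : ∀ t, RR T c v t * DD X (t + u) = ∑ i ∈ s, b i * ee (i.1 * i.2) t := by
    intro t
    rw [RR_eq, DD, Finset.sum_mul_sum, ← Finset.sum_product']
    refine Finset.sum_congr rfl fun i hi => ?_
    rw [Finset.mem_product] at hi
    have h1 := (Finset.mem_Icc.1 hi.1).1
    have h2 := (Finset.mem_Icc.1 hi.2).1
    rw [ee_mul (by omega) (by omega), ee_add, hb]
    ring
  have hle : ∫ t, wt T c v τ t * SS X (t + u) ^ 2 ≤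
      ∫ t, PW (WW T) (t - τ) * ‖∑ i ∈ s, b i * ee (i.1 * i.2) t‖ ^ 2 := by
    have hpt : ∀ t, wt T c v τ t * SS X (t + u) ^ 2 ≤ PW (WW T) (t - τ) * ‖∑ i ∈ s, b i * ee (i.1 * i.2) t‖ ^ 2 := by
      intro t
      rw [← hprod, norm_mul, mul_pow, ← mul_assoc]
      exact mul_le_mul_of_nonneg_left (SS_le X (t + u)) (wt_nonneg hT0 t)
    apply integral_mono_of_nonneg
    · exact Eventually.of_forall fun t => mul_nonneg (wt_nonneg hT0 t) (sq_nonneg _)
    · obtain ⟨B, hB⟩ := RR_bdd T c v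
      obtain ⟨B', hB'⟩ := DD_bdd X
      have h := int_PW_bdd hW τ (f := fun t => ‖RR T c v t * DD X (t + u)‖ ^ 2)
        ((((RR_cont T c v).mul ((DD_cont X).comp (continuous_id.add continuous_const))).norm.pow 2))
        (C := (B * B') ^ 2) (fun t => by
          rw [abs_of_nonneg (by positivity), norm_mul]
          have h1 : ‖RR T c v t‖ * ‖DD X (t + u)‖ ≤ B * B' :=
            mul_le_mul (hB t) (hB' _) (norm_nonneg _) ((norm_nonneg _).trans (hB t))
          exact pow_le_pow_left₀ (by positivity) h1 2)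
      simpa only [hprod] using h
    · exact Eventually.of_forall hpt
  refine hle.trans ?_
  have hkey : ∀ i ∈ s, 1 ≤ i.1 * i.2 ∧ i.1 * i.2 ≤ M * N := by
    intro i hi
    rw [hs, Finset.mem_product, Finset.mem_Icc, Finset.mem_Icc] at hi
    exact ⟨Nat.mul_le_mul hi.1.1 hi.2.1, Nat.mul_le_mul hi.1.2 hi.2.2⟩
  have hmv := mv hW τ s (fun i => i.1 * i.2) b hkey
  refine hmv.trans ?_
  -- norms of the coefficients
  have hbn : ∀ i ∈ s, ‖b i‖ = |rr T c v i.1| / Real.sqrt i.1 * cf X i.2 := by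
    intro i hi
    rw [hs, Finset.mem_product] at hi
    rw [hb]
    simp only
    rw [norm_mul, norm_mul, ee_norm, mul_one, Complex.norm_real, Complex.norm_real, Real.norm_eq_abs,
      Real.norm_eq_abs, abs_div, abs_of_nonneg (Real.sqrt_nonneg _), abs_of_nonneg (cf_bd hX0 hi.2).1]
  have hdiag : (∑ i ∈ s, ∑ j ∈ s, if i.1 * i.2 = j.1 * j.2 then ‖b i‖ * ‖b j‖ else 0) ≤
      c * (VV T c v * (2 + Pool.Agent.Helper57.LS.CMe)) := by
    have h1 : (∑ i ∈ s, ∑ j ∈ s, if i.1 * i.2 = j.1 * j.2 then ‖b i‖ * ‖b j‖ else 0) =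
        ∑ i ∈ s, ∑ j ∈ s, if i.1 * i.2 = j.1 * j.2 then
          (|rr T c v i.1| / Real.sqrt i.1 * cf X i.2) * (|rr T c v j.1| / Real.sqrt j.1 * cf X j.2) else 0 := by
      refine Finset.sum_congr rfl fun i hi => Finset.sum_congr rfl fun j hj => ?_
      rw [hbn i hi, hbn j hj]
    rw [h1]
    have hlogT : Real.log (T ^ (1 / 8 : ℝ)) = Real.log T / 8 := by
      rw [Real.log_rpow hT0]
      ring
    have h2 := diag (M := M) (N := N) (rr T c v) (cf X) (η := 2 / X) (K := c) (by positivity)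
      (fun n hn => ⟨(cf_bd hX0 hn).1, (cf_bd hX0 hn).2.1⟩) (fun m hm n hn => by
        have hm' := Finset.mem_Icc.1 hm
        have hm0 : (0:ℝ) < m := by exact_mod_cast hm'.1
        have hn0 : (0:ℝ) < n := by exact_mod_cast (Finset.mem_Icc.1 hn).1
        have h3 : Real.log m ≤ Real.log T / 8 := by
          rw [← hlogT]
          apply Real.log_le_log hm0
          have : (m : ℝ) ≤ M := by exact_mod_cast hm'.2
          exact this.trans hMle
        have h4 := (cf_bd hX0 hn).2.2.2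
        rw [Nat.cast_mul, Real.log_mul hm0.ne' hn0.ne']
        have h5 : Real.log T = c * (X * e) := by
          rw [← hcX, hXdef]
          field_simp
        have h6 : 2 / X * (Real.log m + Real.log n) ≤ 2 / X * (c * (X * e) / 8 + X) := by
          apply mul_le_mul_of_nonneg_left _ (by positivity)
          rw [← h5]
          linarith
        have h7 : 2 / X * (c * (X * e) / 8 + X) = c * e / 4 + 2 := by
          field_simp
          ring
        rw [h7] at h6
        nlinarith [he1.2])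
    refine h2.trans ?_
    apply mul_le_mul_of_nonneg_left _ (by linarith)
    apply mul_le_mul le_rfl _ _ (by change 0 ≤ VV T c v; linarith)
    · have h8 := Pool.Agent.Helper57.LS.mertens hX0.le
      rw [abs_le] at h8
      have h9 : ∑ n ∈ Finset.Icc 1 N, 2 / X * ArithmeticFunction.vonMangoldt n / n ≤
          2 / X * ∑ n ∈ Finset.range (Pool.Agent.Helper57.LH.NX X + 1), ArithmeticFunction.vonMangoldt n / n := by
        rw [Finset.mul_sum]
        have h10 : ∀ n : ℕ, 2 / X * ArithmeticFunction.vonMangoldt n / n = 2 / X * (ArithmeticFunction.vonMangoldt n / n) := by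
          intro n
          ring
        simp_rw [h10]
        apply Finset.sum_le_sum_of_subset_of_nonneg
        · intro n hn
          rw [Finset.mem_Icc] at hn
          rw [Finset.mem_range]
          have : Pool.Agent.Helper57.LH.NX X = N := rfl
          omega
        · intro n _ _
          have := ArithmeticFunction.vonMangoldt_nonneg (n := n)
          positivity
      refine h9.trans ?_
      calc 2 / X * ∑ n ∈ Finset.range (Pool.Agent.Helper57.LH.NX X + 1), ArithmeticFunction.vonMangoldt n / n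
          ≤ 2 / X * (X + Pool.Agent.Helper57.LS.CMe) := by
            apply mul_le_mul_of_nonneg_left _ (by positivity)
            linarith [h8.2]
        _ = 2 + 2 / X * Pool.Agent.Helper57.LS.CMe := by
            field_simp
        _ ≤ 2 + Pool.Agent.Helper57.LS.CMe := by
            have : 2 / X ≤ 1 := by
              rw [div_le_one hX0]
              linarith
            nlinarith
    · exact Finset.sum_nonneg fun n _ => by
        have := ArithmeticFunction.vonMangoldt_nonneg (n := n)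
        positivity
  have herr : (∑ i ∈ s, ‖b i‖) ^ 2 * Real.exp (-(WW T / ((M * N : ℕ) : ℝ))) ≤ 4 := by
    have h1 : ∑ i ∈ s, ‖b i‖ ≤ 2 * T ^ (1 / 4 : ℝ) := by
      have h2 : ∀ i ∈ s, ‖b i‖ ≤ 2 * T ^ (1 / 192 : ℝ) := by
        intro i hi
        rw [hbn i hi]
        rw [hs, Finset.mem_product] at hi
        have h3 : (1:ℝ) ≤ Real.sqrt i.1 := Real.one_le_sqrt.2 (by exact_mod_cast (Finset.mem_Icc.1 hi.1).1)
        have h4 : |rr T c v i.1| / Real.sqrt i.1 ≤ T ^ (1 / 192 : ℝ) :=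
          (div_le_self (abs_nonneg _) h3).trans (hr _)
        calc _ ≤ T ^ (1 / 192 : ℝ) * 2 :=
              mul_le_mul h4 (cf_bd hX0 hi.2).2.2.1 (cf_bd hX0 hi.2).1 (by positivity)
          _ = _ := by ring
      calc ∑ i ∈ s, ‖b i‖ ≤ ∑ i ∈ s, 2 * T ^ (1 / 192 : ℝ) := Finset.sum_le_sum h2
        _ = (M * N) * (2 * T ^ (1 / 192 : ℝ)) := by
            rw [Finset.sum_const, hs, Finset.card_product, Nat.card_Icc, Nat.card_Icc, nsmul_eq_mul]
            push_cast
            simp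
        _ ≤ (T ^ (1 / 8 : ℝ) * T ^ (1 / 16 : ℝ)) * (2 * T ^ (1 / 192 : ℝ)) := by
            apply mul_le_mul_of_nonneg_right _ (by positivity)
            exact mul_le_mul hMle hNle (by positivity) (by positivity)
        _ = 2 * T ^ ((1 / 8 : ℝ) + 1 / 16 + 1 / 192) := by
            rw [Real.rpow_add hT0, Real.rpow_add hT0]
            ring
        _ ≤ 2 * T ^ (1 / 4 : ℝ) := by
            apply mul_le_mul_of_nonneg_left _ (by norm_num)
            exact Real.rpow_le_rpow_of_exponent_le hT1 (by norm_num)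
    have h5 : (∑ i ∈ s, ‖b i‖) ^ 2 ≤ 4 * T ^ (1 / 2 : ℝ) := by
      calc (∑ i ∈ s, ‖b i‖) ^ 2 ≤ (2 * T ^ (1 / 4 : ℝ)) ^ 2 :=
            pow_le_pow_left₀ (Finset.sum_nonneg fun _ _ => norm_nonneg _) h1 2
        _ = 4 * (T ^ (1 / 4 : ℝ) * T ^ (1 / 4 : ℝ)) := by ring
        _ = 4 * T ^ (1 / 2 : ℝ) := by
            rw [← Real.rpow_add hT0]
            norm_num
    have h6 : T ^ (1 / 2 : ℝ) ≤ WW T / ((M * N : ℕ) : ℝ) := by
      have hMN : (0:ℝ) < ((M * N : ℕ) : ℝ) := by exact_mod_cast Nat.mul_pos hM1 hN1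
      rw [le_div_iff₀ hMN]
      calc T ^ (1 / 2 : ℝ) * ((M * N : ℕ) : ℝ) ≤ T ^ (1 / 2 : ℝ) * (T ^ (1 / 8 : ℝ) * T ^ (1 / 16 : ℝ)) := by
            apply mul_le_mul_of_nonneg_left _ (by positivity)
            push_cast
            exact mul_le_mul hMle hNle (by positivity) (by positivity)
        _ = T ^ ((1 / 2 : ℝ) + 1 / 8 + 1 / 16) := by
            rw [Real.rpow_add hT0, Real.rpow_add hT0]
            ring
        _ ≤ WW T := by
            unfold WW
            exact Real.rpow_le_rpow_of_exponent_le hT1 (by norm_num)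
    have h7 : Real.exp (-(WW T / ((M * N : ℕ) : ℝ))) ≤ Real.exp (-(T ^ (1 / 2 : ℝ))) :=
      Real.exp_le_exp.2 (neg_le_neg h6)
    calc _ ≤ (4 * T ^ (1 / 2 : ℝ)) * Real.exp (-(T ^ (1 / 2 : ℝ))) :=
          mul_le_mul h5 h7 (Real.exp_pos _).le (by positivity)
      _ ≤ 4 := by
          have h8 := Real.add_one_le_exp (T ^ (1 / 2 : ℝ))
          rw [Real.exp_neg, ← div_eq_mul_inv, div_le_iff₀ (Real.exp_pos _)]
          linarith
  calc _ ≤ c * (VV T c v * (2 + Pool.Agent.Helper57.LS.CMe)) + 4 := add_le_add hdiag herr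
    _ ≤ (6 + Pool.Agent.Helper57.LS.CMe) * c * VV T c v := by
        have h9 : (1:ℝ) ≤ c * VV T c v := by nlinarith
        nlinarith

end Pool.Agent.Helper65.UG
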